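import Pool.Agent.H97.PR.Targets

/-!
# Board pry_modules (MP_c62aed_lc), row ADS: several variables are asked
-/

set_option autoImplicit false

namespace Pool.Agent.H36.PRY

open Finset Pool.Agent.H97.PR

theorem pf_ADS : T_ADS := by
  classical
  intro N k m F D G hG A T y
  induction T using Finset.induction_on with
  | empty =>
    intro _ hy
    exact ⟨y, fun _ _ => rfl, by rwa [union_empty]⟩
  | insert v T hv ih =>
    intro hc hy
    have h1 : A ∪ insert v T = insert v (A ∪ T) := union_insert v A T
    rw [h1] at hc ⊢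
    have h2 : (A ∪ T).card ≤ D := (card_le_card (subset_insert v (A ∪ T))).trans hc
    obtain ⟨y1, hy1, hg1⟩ := ih h2 hy
    by_cases hvm : v ∈ A ∪ T
    · exact ⟨y1, hy1, by rwa [insert_eq_self.2 hvm]⟩
    · rw [card_insert_of_notMem hvm] at hc
      obtain ⟨y2, hy2, hg2⟩ := hG.ext (A ∪ T) v y1 (by omega) hvm hg1
      exact ⟨y2, fun u hu => (hy2 u (mem_union_left T hu)).trans (hy1 u hu), hg2⟩

end Pool.Agent.H36.PRY
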